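import Pool.Agent.Lib.MP_c50dba_nt.Gen.Core
import Pool.Agent.Lib.MP_c50dba_nt.Gen.Baker
import Pool.Agent.Lib.MP_c50dba_nt.Gen.Cube
import Pool.Agent.Lib.MP_c50dba_nt.Gen.CubeFree
import Pool.Agent.Lib.MP_c50dba_nt.Gen.Lin
import Pool.Agent.Lib.MP_c50dba_nt.Gen.Multi
import Pool.Agent.Lib.MP_c50dba_nt.Gen.Point
import Pool.Agent.Lib.MP_c50dba_nt.Gen.Moments
import Pool.Agent.Lib.MP_c50dba_nt.Gen.Schwarz
import Pool.Agent.Lib.MP_c50dba_nt.GaloisLog

set_option autoImplicit false

/-!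
Galois cubes: if the conjugates over a p-adic field `K` of the logarithm of an algebraic number
contain a large cube then its powers `0, ..., d` times given elements of `K` which are linearly
independent over the algebraic numbers are linearly independent over the algebraic numbers.
-/

namespace Pool.Agent.Lib.MP_c50dba_nt.GC

open Pool.Agent.Lib.MP_c50dba_nt Pool.Agent.Lib.MP_c50dba_nt.Gen Pool.Agent.Lib.MP_c50dba_nt.Gen.G2

variable {p : ℕ} [Fact p.Prime] {L : PadicAlgCl p → PadicAlgCl p}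

theorem algEquiv_AN83 (σ : PadicAlgCl p ≃ₐ[ℚ_[p]] PadicAlgCl p) {x : PadicAlgCl p}
    (hx : IsAlgebraic ℚ x) : IsAlgebraic ℚ (σ x) := by
  obtain ⟨P, hP, hPx⟩ := hx
  refine ⟨P, hP, ?_⟩
  have h1 := Polynomial.aeval_algHom_apply ((σ : PadicAlgCl p →ₐ[ℚ_[p]] PadicAlgCl p).restrictScalars ℚ) x P
  rw [hPx, map_zero] at h1
  exact h1

/-- Linear independence over the algebraic numbers can be tested after an automorphism. -/
theorem linInd_of_algEquiv83 {κ : Type} [Fintype κ] (σ : PadicAlgCl p ≃ₐ[ℚ_[p]] PadicAlgCl p)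
    (g : κ → PadicAlgCl p) (h : LinearIndependent (AN p) (fun x => σ (g x))) :
    LinearIndependent (AN p) g := by
  rw [Fintype.linearIndependent_iff] at h ⊢
  intro c hc x
  have h1 : ∀ x, IsAlgebraic ℚ (σ (c x : PadicAlgCl p)) := fun x =>
    algEquiv_AN83 σ (mem_algebraicClosure_iff.1 (c x).2)
  have h2 := h (fun x => ⟨σ (c x : PadicAlgCl p), mem_algebraicClosure_iff.2 (h1 x)⟩) (by
    have h3 := congrArg σ hc
    rw [map_sum, map_zero] at h3
    rw [← h3]
    apply Finset.sum_congr rfl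
    intro x _
    rw [Algebra.smul_def, Algebra.smul_def, map_mul]
    rfl) x
  have h4 : σ (c x : PadicAlgCl p) = 0 := congrArg Subtype.val h2
  have h5 : (c x : PadicAlgCl p) = 0 := by
    apply σ.injective
    rw [h4, map_zero]
  exact_mod_cast h5

/-- Baker-Brumer for values of `L` at algebraic numbers given as elements. -/
theorem baker83 (hL : IsIwasawaLog p L) {h : ℕ} (v : Fin h → PadicAlgCl p)
    (hv : ∀ i, ∃ a, a ≠ 0 ∧ IsAlgebraic ℚ a ∧ v i = L a) (hli : LinearIndependent ℚ v) :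
    LinearIndependent (AN p) v := by
  choose a ha halg hva using hv
  have h1 : v = fun i => L (a i) := funext hva
  rw [h1] at hli
  rw [Fintype.linearIndependent_iff]
  intro c hc i
  have h2 := stBaker (stCore stSchwarz stMoments) p L hL h a ha halg hli (fun i => (c i : PadicAlgCl p))
    (fun i => mem_algebraicClosure_iff.1 (c i).2) (by
      rw [← hc]
      apply Finset.sum_congr rfl
      intro i _
      rw [h1, Algebra.smul_def]
      rfl)
  have h3 : ((c i : AN p) : PadicAlgCl p) = 0 := congrFun h2 i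
  exact_mod_cast h3

/-- Scaling keeps linear independence. -/
theorem smul_ind83 {κ : Type} (v : κ → PadicAlgCl p) (hv : LinearIndependent (AN p) v)
    {u : PadicAlgCl p} (hu : u ≠ 0) : LinearIndependent (AN p) (fun i => u * v i) := by
  have h1 := hv.map' (LinearMap.mulLeft (AN p) u) (by
    rw [LinearMap.ker_eq_bot]
    intro x y hxy
    exact mul_left_cancel₀ hu hxy)
  exact h1

theorem step83 (hL : IsIwasawaLog p L) {ι : Type} [Fintype ι] (f : ι → PadicAlgCl p)
    (hf : LinearIndependent (AN p) f) (d h : ℕ)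
    (hh : d * Fintype.card ι ^ 2 * (d + 1) ^ 2 ≤ h) (a : PadicAlgCl p) (ha : a ≠ 0)
    (halg : IsAlgebraic ℚ a) (y u : PadicAlgCl p) (hu : u ≠ 0)
    (v : Fin h → PadicAlgCl p) (hv : LinearIndependent ℚ v)
    (hσ : ∀ S : Finset (Fin h), ∃ σ : PadicAlgCl p ≃ₐ[ℚ_[p]] PadicAlgCl p,
      (∀ x, σ (f x) = f x) ∧ σ y = y ∧ σ u = u ∧ σ (L a) = L a + ∑ i ∈ S, v i) :
    LinearIndependent (AN p) (fun x : ι × Fin (d + 1) => f x.1 * (y + u * L a) ^ (x.2 : ℕ)) := by
  classical
  rcases isEmpty_or_nonempty ι with hι | hι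
  · exact linearIndependent_empty_type
  have := isAlgClosed_AN p
  -- the `v i` are logarithms
  have hvlog : ∀ i, ∃ b, b ≠ 0 ∧ IsAlgebraic ℚ b ∧ v i = L b := by
    intro i
    obtain ⟨σ, -, -, -, h1⟩ := hσ {i}
    rw [Finset.sum_singleton, ← L_algEquiv L hL.1 hL.2.1 hL.2.2 σ ha] at h1
    have hσa : σ a ≠ 0 := by
      intro h
      exact ha (σ.injective (by rw [h, map_zero]))
    refine ⟨σ a * a⁻¹, mul_ne_zero hσa (inv_ne_zero ha), (algEquiv_AN83 σ halg).mul halg.inv, ?_⟩
    have h2 := hL.1 (σ a * a⁻¹) a (mul_ne_zero hσa (inv_ne_zero ha)) ha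
    rw [inv_mul_cancel_right₀ ha, h1] at h2
    linear_combination h2
  have hvAN := smul_ind83 v (baker83 hL v hvlog hv) hu
  -- choose part of the cube
  set B : ℕ := d * (Fintype.card ι * (d + 1)) with hB
  have hcard : Fintype.card (Fin B × (ι × Fin (d + 1))) ≤ h := by
    rw [Fintype.card_prod, Fintype.card_prod, Fintype.card_fin, Fintype.card_fin, hB]
    calc d * (Fintype.card ι * (d + 1)) * (Fintype.card ι * (d + 1))
        = d * Fintype.card ι ^ 2 * (d + 1) ^ 2 := by ring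
      _ ≤ h := hh
  let en : Fin B × (ι × Fin (d + 1)) ↪ Fin h :=
    (Fintype.equivFin _).toEmbedding.trans (Fin.castLEEmb hcard)
  obtain ⟨S, hS⟩ := stCube stPoint stMulti stLin (AN p) (PadicAlgCl p) ι f hf d B le_rfl
    (fun x => u * v (en x)) (hvAN.comp en en.injective) (y + u * L a)
  obtain ⟨σ, hσf, hσy, hσu, hσa⟩ := hσ (S.map en)
  apply linInd_of_algEquiv83 σ
  have h1 : (fun x : ι × Fin (d + 1) => σ (f x.1 * (y + u * L a) ^ (x.2 : ℕ))) =
      fun x : ι × Fin (d + 1) => f x.1 * (y + u * L a + ∑ i ∈ S, u * v (en i)) ^ (x.2 : ℕ) := by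
    funext x
    rw [map_mul, map_pow, map_add, map_mul, hσf, hσy, hσu, hσa, Finset.sum_map, mul_add,
      Finset.mul_sum, add_assoc]
  rw [h1]
  exact hS

theorem iter83 (hL : IsIwasawaLog p L) (N d : ℕ) (f : Fin N → PadicAlgCl p)
    (hf : LinearIndependent (AN p) f) : ∀ (n : ℕ) (a y u : Fin n → PadicAlgCl p)
    (_ : ∀ i, a i ≠ 0 ∧ IsAlgebraic ℚ (a i) ∧ u i ≠ 0)
    (_ : ∀ j : Fin n, ∃ v : Fin (d * N ^ 2 * (d + 1) ^ (2 * ((j : ℕ) + 1))) → PadicAlgCl p,
      LinearIndependent ℚ v ∧ ∀ S, ∃ σ : PadicAlgCl p ≃ₐ[ℚ_[p]] PadicAlgCl p,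
        (∀ x, σ (f x) = f x) ∧ (∀ i, i < j → σ (y i + u i * L (a i)) = y i + u i * L (a i)) ∧
        σ (y j) = y j ∧ σ (u j) = u j ∧ σ (L (a j)) = L (a j) + ∑ i ∈ S, v i),
    LinearIndependent (AN p) (fun x : Fin N × (Fin n → Fin (d + 1)) =>
      f x.1 * ∏ i, (y i + u i * L (a i)) ^ (x.2 i : ℕ)) := by
  intro n
  induction n with
  | zero =>
    intro a y u _ _
    have hinj : Function.Injective (fun x : Fin N × (Fin 0 → Fin (d + 1)) => x.1) := by
      rintro ⟨x, k⟩ ⟨y, k'⟩ h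
      simp only at h
      rw [h, Subsingleton.elim k k']
    have h1 := hf.comp _ hinj
    convert h1 using 2 with x
    simp
  | succ n ih =>
    intro a y u ha hcube
    have h1 := ih (fun i => a i.castSucc) (fun i => y i.castSucc) (fun i => u i.castSucc)
      (fun i => ha i.castSucc) (by
      intro j
      obtain ⟨v, hv, hS⟩ := hcube j.castSucc
      refine ⟨v, hv, fun S => ?_⟩
      obtain ⟨σ, h1, h2, h3, h4, h5⟩ := hS S
      exact ⟨σ, h1, fun i hi => h2 i.castSucc (by simpa using hi), h3, h4, h5⟩)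
    obtain ⟨v, hv, hS⟩ := hcube (Fin.last n)
    have h2 := step83 hL (fun x : Fin N × (Fin n → Fin (d + 1)) =>
      f x.1 * ∏ i : Fin n, (y i.castSucc + u i.castSucc * L (a i.castSucc)) ^ (x.2 i : ℕ)) h1 d
      (d * N ^ 2 * (d + 1) ^ (2 * (((Fin.last n : Fin (n + 1)) : ℕ) + 1))) (by
        rw [Fintype.card_prod, Fintype.card_fun, Fintype.card_fin, Fintype.card_fin,
          Fintype.card_fin, Fin.val_last]
        apply le_of_eq
        ring) (a (Fin.last n)) (ha _).1 (ha _).2.1 (y (Fin.last n)) (u (Fin.last n)) (ha _).2.2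
      v hv (by
        intro S
        obtain ⟨σ, h1, h2, h3, h4, h5⟩ := hS S
        refine ⟨σ, fun x => ?_, h3, h4, h5⟩
        rw [map_mul, map_prod, h1]
        congr 1
        apply Finset.prod_congr rfl
        intro i _
        rw [map_pow, h2 i.castSucc (Fin.castSucc_lt_last i)])
    have hinj : Function.Injective (fun x : Fin N × (Fin (n + 1) → Fin (d + 1)) =>
        (((x.1, fun i : Fin n => x.2 i.castSucc), x.2 (Fin.last n)) :
          (Fin N × (Fin n → Fin (d + 1))) × Fin (d + 1))) := by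
      rintro ⟨x, k⟩ ⟨y, k'⟩ h
      simp only [Prod.mk.injEq] at h
      obtain ⟨⟨h3, h4⟩, h5⟩ := h
      rw [h3]
      congr 1
      funext i
      refine Fin.lastCases h5 (fun j => ?_) i
      exact congrFun h4 j
    have h3 := h2.comp _ hinj
    convert h3 using 2 with x
    rw [Fin.prod_univ_castSucc]
    simp only [Function.comp]
    ring

end Pool.Agent.Lib.MP_c50dba_nt.GC
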